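import Pool.Agent.Y150.CD.Stm

/-!
# Project CD: step TAU, `√p` is ramified at `p`
-/

set_option autoImplicit false

namespace Pool.Agent.Y179.CD

open Pool.Agent.Y150.CD
open scoped Pointwise

/-- `ℚ̄` is algebraic -/
theorem halg : Algebra.IsAlgebraic ℚ Qb := AlgebraicClosure.isAlgebraic ℚ

/-- `ℚ̄` is Galois -/
theorem hgal : IsGalois ℚ Qb :=
  have := halg
  { to_isSeparable := inferInstance
    to_normal := normal_iff.mpr fun x =>
      ⟨Algebra.IsIntegral.isIntegral x, IsAlgClosed.splits _⟩ }

/-- lifting lemma for a profinite group acting on a ring -/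
theorem lift_inert {B H : Type} [CommRing B] [Group H] [MulSemiringAction H B]
    [TopologicalSpace H] [CompactSpace H] [TotallyDisconnectedSpace H] [IsTopologicalGroup H]
    [TopologicalSpace B] [DiscreteTopology B] [ContinuousSMul H B] (P : Ideal B) [P.IsPrime]
    (g : B ≃+* B) (hg : ∀ x : B, (∀ h : H, h • x = x) → g x - x ∈ P) :
    ∃ h k : H, ∀ x : B, k • (g (h • x)) - x ∈ P := by
  let A := FixedPoints.subalgebra ℤ B H
  have hsc : SMulCommClass H A B := inferInstance
  have hinv : Algebra.IsInvariant A B H := ⟨fun b hb => ⟨⟨b, hb⟩, rfl⟩⟩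
  let P1 : Ideal B := P.comap (g : B →+* B)
  have hP1 : P1.IsPrime := Ideal.IsPrime.comap _
  have hu : P.under A = P1.under A := by
    ext x
    rw [Ideal.under_def, Ideal.under_def, Ideal.mem_comap, Ideal.mem_comap, Ideal.mem_comap]
    have h1 : g (x : B) - (x : B) ∈ P := hg x x.2
    show (x : B) ∈ P ↔ g (x : B) ∈ P
    constructor
    · intro h
      have := P.add_mem h1 h
      rwa [sub_add_cancel] at this
    · intro h
      have := P.sub_mem h h1
      rwa [sub_sub_cancel] at this
  obtain ⟨h, hh⟩ := Algebra.IsInvariant.exists_smul_of_under_eq_of_profinite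
    (A := A) (G := H) P P1 hu
  -- `ψ x = g (h • x)` preserves `P`
  have hψP : ∀ x : B, g (h • x) ∈ P ↔ x ∈ P := by
    intro x
    have h1 : h • x ∈ P1 ↔ h • x ∈ h • P := by rw [hh]
    rw [Ideal.smul_mem_pointwise_smul_iff] at h1
    rw [← h1]
    exact Iff.rfl
  let ψ : B ≃+* B := (MulSemiringAction.toRingEquiv H B h).trans g
  have hψ : ∀ x, ψ x = g (h • x) := fun x => rfl
  have hmap : P = P.map (ψ : B →+* B) := by
    apply le_antisymm
    · intro x hx
      have h1 : ψ.symm x ∈ P := by
        rw [← hψP, ← hψ]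
        simpa using hx
      have h2 := Ideal.mem_map_of_mem (ψ : B →+* B) h1
      simpa using h2
    · rw [Ideal.map_le_iff_le_comap]
      intro y hy
      show ψ y ∈ P
      rw [hψ, hψP]
      exact hy
  let σ : (B ⧸ P) ≃+* (B ⧸ P) := Ideal.quotientEquiv P P ψ hmap
  have hσ : ∀ x : B, σ (Ideal.Quotient.mk P x) = Ideal.Quotient.mk P (ψ x) := fun x => rfl
  let σA : (B ⧸ P) ≃ₐ[A ⧸ P.under A] (B ⧸ P) := AlgEquiv.ofRingEquiv (f := σ) (by
    intro a
    obtain ⟨a, rfl⟩ := Ideal.Quotient.mk_surjective a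
    show σ (Ideal.Quotient.mk P (a : B)) = Ideal.Quotient.mk P (a : B)
    rw [hσ, Ideal.Quotient.eq, hψ, a.2 h]
    exact hg a a.2)
  obtain ⟨k, hk⟩ := Ideal.Quotient.stabilizerHom_surjective_of_profinite (G := H)
    (P.under A) P σA
  refine ⟨h, (k : H)⁻¹, ?_⟩
  intro x
  have h1 : Ideal.Quotient.mk P ((k : H) • x) = Ideal.Quotient.mk P (g (h • x)) := by
    have := DFunLike.congr_fun hk (Ideal.Quotient.mk P x)
    exact this
  rw [Ideal.Quotient.eq] at h1
  have hkP : (k : H) • P = P := k.2
  have h2 : (k : H) • ((k : H)⁻¹ • g (h • x) - x) ∈ (k : H) • P := by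
    rw [hkP, smul_sub, smul_inv_smul]
    have := P.neg_mem h1
    rwa [neg_sub] at this
  rwa [Ideal.smul_mem_pointwise_smul_iff] at h2

theorem tau : S_tau := by
  intro Z p K hp hp2 P hPo
  have := halg
  have := hgal
  obtain ⟨hPp, hpP⟩ := hPo
  have := hPp
  set s : Qb := K.r 1 with hs
  have hs2 : s ^ 2 = (p : Qb) := by rw [hs, K.rs 0, K.r0]
  -- reduction
  suffices hmain : ∃ g : G, Inert P g ∧ g s ≠ s by
    obtain ⟨g, hg1, hg2⟩ := hmain
    refine ⟨g, hg1, ?_⟩
    intro hd
    apply hg2
    have := K.act g 1 0 (by simpa using hd)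
    simpa using this
  have hpm : ∀ g : G, g s = s ∨ g s = -s := by
    intro g
    have h1 : (g s) ^ 2 = s ^ 2 := by
      rw [← map_pow, hs2, map_natCast]
    exact sq_eq_sq_iff_eq_or_eq_neg.1 h1
  have hs0 : s ≠ 0 := by
    intro h
    rw [h] at hs2
    have : (p : Qb) ≠ 0 := Nat.cast_ne_zero.2 hp.ne_zero
    exact this (by rw [← hs2]; ring)
  -- invariant elements
  have hinv : ∀ x : Qb, (∀ g : G, g x = x) → ∃ r : ℚ, algebraMap ℚ Qb r = x := by
    intro x hx
    exact (InfiniteGalois.mem_range_algebraMap_iff_fixed x).2 hx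
  have hinvZ : ∀ x : O, (∀ g : G, g (x : Qb) = x) → ∃ n : ℤ, x = (n : O) := by
    intro x hx
    obtain ⟨r, hr⟩ := hinv x hx
    have h1 : IsIntegral ℤ (algebraMap ℚ Qb r) := by
      rw [hr]
      exact x.2
    have h2 : IsIntegral ℤ r := (isIntegral_algebraMap_iff (algebraMap ℚ Qb).injective).1 h1
    obtain ⟨n, hn⟩ := IsIntegrallyClosed.isIntegral_iff.1 h2
    refine ⟨n, ?_⟩
    apply Subtype.ext
    rw [← hr, ← hn]
    simp
  -- an automorphism moving s
  obtain ⟨g, hgs⟩ : ∃ g : G, g s = -s := by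
    by_contra hcon
    push Not at hcon
    have h1 : ∀ g : G, g s = s := fun g => (hpm g).resolve_right (hcon g)
    obtain ⟨r, hr⟩ := hinv s h1
    have h2 : r ^ 2 = (p : ℚ) := by
      apply (algebraMap ℚ Qb).injective
      rw [map_pow, hr, hs2, map_natCast]
    have h3 : Irrational (Real.sqrt p) := hp.irrational_sqrt
    apply h3
    refine ⟨|r|, ?_⟩
    have h4 : ((p : ℕ) : ℝ) = (r : ℝ) ^ 2 := by
      have := congrArg (fun t : ℚ => (t : ℝ)) h2
      push_cast at this
      exact this.symm
    rw [h4, Real.sqrt_sq_eq_abs]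
    push_cast
    rfl
  have hgs' : g⁻¹ s = -s := by
    have : g⁻¹ (g s) = s := by
      rw [← AlgEquiv.mul_apply, inv_mul_cancel, AlgEquiv.one_apply]
    rw [hgs, map_neg] at this
    rw [← neg_eq_iff_eq_neg]
    exact this
  have hsint : IsIntegral ℤ s := by
    apply IsIntegral.of_pow (n := 2) (by norm_num)
    rw [hs2]
    exact isIntegral_algebraMap (R := ℤ) (A := Qb) (x := (p : ℤ)) |> fun h => by simpa using h
  let sO : O := ⟨s, hsint⟩
  have hsO2 : sO ^ 2 = (p : O) := by
    apply Subtype.ext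
    show s ^ 2 = ((p : O) : Qb)
    rw [hs2]
    rfl
  have hsP : sO ∈ P := by
    apply hPp.mem_of_pow_mem 2
    rw [hsO2]
    exact hpP
  -- the group
  let H : Subgroup G := MulAction.stabilizer G s
  have hHopen : IsOpen (H : Set G) := stabilizer_isOpen_of_isIntegral s
  have hHclosed : IsClosed (H : Set G) := Subgroup.isClosed_of_isOpen H hHopen
  have hHc : CompactSpace H := isCompact_iff_compactSpace.1 hHclosed.isCompact
  let _ : TopologicalSpace O := ⊥
  have : DiscreteTopology O := ⟨rfl⟩
  have hcs : ContinuousSMul G O := by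
    rw [continuousSMul_iff_stabilizer_isOpen]
    intro x
    have h1 := stabilizer_isOpen_of_isIntegral (K := ℚ) (L := Qb) (x : Qb)
    have h2 : (MulAction.stabilizer G x : Set G) = (MulAction.stabilizer G (x : Qb) : Set G) := by
      ext t
      simp only [SetLike.mem_coe, MulAction.mem_stabilizer_iff]
      rw [← integralClosure.coe_smul]
      exact ⟨fun h => by rw [h], fun h => Subtype.ext h⟩
    rw [h2]
    exact h1
  have hcsH : ContinuousSMul H O := by
    rw [continuousSMul_iff_stabilizer_isOpen]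
    intro x
    have h1 : IsOpen (MulAction.stabilizer G x : Set G) := stabilizer_isOpen G x
    exact h1.preimage continuous_subtype_val
  let gO : O ≃+* O := MulSemiringAction.toRingEquiv G O g
  have hact : ∀ (t : G) (x : O), act t x = t • x := fun t x => Subtype.ext rfl
  -- the key congruence
  have hkey : ∀ x : O, (∀ h : H, h • x = x) → gO x - x ∈ P := by
    intro x hx
    have hfix : ∀ t : G, t s = s → t • x = x := fun t ht => hx ⟨t, ht⟩
    have hnon : ∀ t : G, t s = -s → t • x = g • x := by
      intro t ht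
      have h1 : (g⁻¹ * t) • x = x := by
        apply hfix
        rw [AlgEquiv.mul_apply, ht, map_neg, hgs', neg_neg]
      rw [mul_smul, inv_smul_eq_iff] at h1
      exact h1
    set y : O := g • x - x with hy
    have hy1 : ∀ t : G, t s = s → t • y = y := by
      intro t ht
      have h1 : (t * g) • x = g • x := by
        apply hnon
        rw [AlgEquiv.mul_apply, hgs, map_neg, ht]
      rw [hy, smul_sub, ← mul_smul, h1, hfix t ht]
    have hy2 : ∀ t : G, t s = -s → t • y = -y := by
      intro t ht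
      have h1 : (t * g) • x = x := by
        apply hfix
        rw [AlgEquiv.mul_apply, hgs, map_neg, ht, neg_neg]
      rw [hy, smul_sub, ← mul_smul, h1, hnon t ht]
      ring
    have hsy : ∀ t : G, t • (sO * y) = sO * y := by
      intro t
      rw [smul_mul']
      rcases hpm t with ht | ht
      · rw [hy1 t ht]
        congr 1
        exact Subtype.ext ht
      · rw [hy2 t ht]
        have : t • sO = -sO := Subtype.ext ht
        rw [this, neg_mul_neg]
    have hyy : ∀ t : G, t • (y ^ 2) = y ^ 2 := by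
      intro t
      rw [smul_pow']
      rcases hpm t with ht | ht
      · rw [hy1 t ht]
      · rw [hy2 t ht, neg_sq]
    obtain ⟨m, hm⟩ := hinvZ (sO * y) (fun t => congrArg Subtype.val (hsy t))
    obtain ⟨n, hn⟩ := hinvZ (y ^ 2) (fun t => congrArg Subtype.val (hyy t))
    have hmn : m ^ 2 = p * n := by
      have h1 : ((m ^ 2 : ℤ) : O) = ((p * n : ℤ) : O) := by
        push_cast
        rw [← hm, ← hn, mul_pow, hsO2]
      exact_mod_cast h1
    have hpm' : (p : ℤ) ∣ m := by
      apply Int.Prime.dvd_pow' hp (n := m) (k := 2)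
      exact ⟨n, hmn⟩
    obtain ⟨k, hk⟩ := hpm'
    have hyk : y = sO * (k : O) := by
      have hsO0 : sO ≠ 0 := by
        intro h
        exact hs0 (congrArg Subtype.val h)
      apply mul_left_cancel₀ hsO0
      rw [hm, hk, ← mul_assoc, ← pow_two, hsO2]
      push_cast
      rfl
    show g • x - x ∈ P
    rw [← hy, hyk]
    exact P.mul_mem_right _ hsP
  obtain ⟨h, k, hhk⟩ := lift_inert (H := H) P gO hkey
  refine ⟨(k : G) * g * (h : G), ?_, ?_⟩
  · intro x
    rw [hact, mul_smul, mul_smul]
    exact hhk x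
  · have hh : (h : G) s = s := h.2
    have hkk : (k : G) s = s := k.2
    rw [AlgEquiv.mul_apply, AlgEquiv.mul_apply, hh, hgs, map_neg, hkk]
    intro h0
    have h1 : 2 * s = 0 := by linear_combination -h0
    rcases mul_eq_zero.1 h1 with h2 | h2
    · norm_num at h2
    · exact hs0 h2

end Pool.Agent.Y179.CD
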